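import Pool.Agent.W376.RTL.Low6

/-!
# EC/FAM6: coprime pairs give curves with `Z/2 x Z/6`, by height

Project EC (helper870); this part by helper134 (light imports: the definitions are literal copies).
-/

set_option autoImplicit false

namespace Pool.Agent.N134.EC

open Finset

open scoped Classical

open Pool.Agent.W307.RT (Cv)
open Pool.Agent.W376.RTL (A6 B6 height6 disc6_ne minimal6 hasT6 inj6)

/-- A literal copy of `Pool.Agent.N870.EC.cM`. -/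
def cM (M N : ℤ) : ℤ × ℤ :=
  (-27 * (M ^ 2 - M * N + N ^ 2), 27 * ((M + N) * ((2 * M - N) * (M - 2 * N))))

/-- A literal copy of `Pool.Agent.N870.EC.M6`. -/
def M6 (a b : ℤ) : ℤ := a ^ 3 * (a + 6 * b)

/-- A literal copy of `Pool.Agent.N870.EC.N6`. -/
def N6 (a b : ℤ) : ℤ := (3 * b) ^ 3 * (3 * b + 2 * a)

theorem cM_eq (a b : ℕ) : cM (M6 a b) (N6 a b) =
    (A6 (a : ℤ) ((3 * b : ℕ) : ℤ), B6 (a : ℤ) ((3 * b : ℕ) : ℤ)) := by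
  refine Prod.ext ?_ ?_
  · show -27 * ((M6 a b) ^ 2 - (M6 a b) * (N6 a b) + (N6 a b) ^ 2) = A6 (a : ℤ) ((3 * b : ℕ) : ℤ)
    unfold A6 M6 N6 Pool.Agent.W307.RT.M6 Pool.Agent.W307.RT.N6
    push_cast
    ring
  · show 27 * ((M6 a b + N6 a b) * ((2 * M6 a b - N6 a b) * (M6 a b - 2 * N6 a b))) =
      B6 (a : ℤ) ((3 * b : ℕ) : ℤ)
    unfold B6 M6 N6 Pool.Agent.W307.RT.M6 Pool.Agent.W307.RT.N6
    push_cast
    ring

theorem mem6 {T H a b : ℕ} (hb : 1 ≤ b) (haT : a ≤ T) (hc : a.Coprime (3 * b)) (hlt : 3 * b < a)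
    (hH : 229582512 * T ^ 24 ≤ H) : cM (M6 a b) (N6 a b) ∈ Cv 6 H := by
  rw [cM_eq]
  have hv0 : (0 : ℤ) < ((3 * b : ℕ) : ℤ) := by exact_mod_cast (by omega : 0 < 3 * b)
  have huv : ((3 * b : ℕ) : ℤ) < (a : ℤ) := by exact_mod_cast hlt
  have huT : (a : ℤ) ≤ (T : ℤ) := by exact_mod_cast haT
  have hcz : IsCoprime (a : ℤ) ((3 * b : ℕ) : ℤ) := Nat.isCoprime_iff_coprime.2 hc
  have h3 : (3 : ℤ) ∣ ((3 * b : ℕ) : ℤ) := by
    push_cast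
    exact Dvd.intro _ rfl
  obtain ⟨g1, g2⟩ := height6 hv0 huv huT
  have hH' : (229582512 : ℤ) * (T : ℤ) ^ 24 ≤ (H : ℤ) := by exact_mod_cast hH
  have g1' := g1.trans hH'
  have g2' := g2.trans hH'
  have b1 : |A6 (a : ℤ) ((3 * b : ℕ) : ℤ)| ≤ (H : ℤ) := by
    have h0 := abs_nonneg (A6 (a : ℤ) ((3 * b : ℕ) : ℤ))
    refine le_trans ?_ g1'
    generalize |A6 (a : ℤ) ((3 * b : ℕ) : ℤ)| = a at *
    rcases h0.eq_or_lt with h | h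
    · rw [← h]; norm_num
    · have h1 : 1 ≤ a := h
      have h2 : 1 ≤ a ^ 2 := one_le_pow₀ h1
      nlinarith
  have b2 : |B6 (a : ℤ) ((3 * b : ℕ) : ℤ)| ≤ (H : ℤ) := by
    refine le_trans ?_ g2'
    rw [← sq_abs]
    have h0 := abs_nonneg (B6 (a : ℤ) ((3 * b : ℕ) : ℤ))
    generalize |B6 (a : ℤ) ((3 * b : ℕ) : ℤ)| = a at *
    rcases h0.eq_or_lt with h | h
    · rw [← h]; norm_num
    · have h1 : 1 ≤ a := h
      nlinarith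
  rw [abs_le] at b1 b2
  rw [Cv, mem_filter, mem_product, mem_Icc, mem_Icc]
  exact ⟨⟨b1, b2⟩, disc6_ne hv0 huv, g1', g2', minimal6 hcz h3, hasT6 hv0 huv⟩

theorem fam6 : ∃ K : ℕ, ∀ X H : ℕ, K * X ^ 24 ≤ H →
    (∀ A B : ℕ, 1 ≤ A → A ≤ X → 1 ≤ B → B ≤ X → A.Coprime B → A % 6 = 1 → 3 * B < A →
      cM (M6 A B) (N6 A B) ∈ Cv 6 H) ∧
    ∀ c : ℤ × ℤ, ((Icc 1 X ×ˢ Icc 1 X).filter (fun t : ℕ × ℕ => t.1.Coprime t.2 ∧ t.1 % 6 = 1 ∧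
      3 * t.2 < t.1 ∧ cM (M6 t.1 t.2) (N6 t.1 t.2) = c)).card ≤ 6 := by
  refine ⟨229582512, fun X H hH => ⟨?_, ?_⟩⟩
  · intro A B hA hAX hB hBX hc h6 hlt
    refine mem6 hB hAX (Nat.Coprime.mul_right ?_ hc) hlt hH
    rw [Nat.coprime_comm, Nat.Prime.coprime_iff_not_dvd Nat.prime_three]
    omega
  · intro c
    refine le_trans (card_le_one.2 ?_) (by norm_num : 1 ≤ 6)
    intro t ht t' ht'
    rw [mem_filter, mem_product, mem_Icc, mem_Icc] at ht ht'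
    obtain ⟨⟨-, hw0, -⟩, -, -, hlt, e⟩ := ht
    obtain ⟨⟨-, hw0', -⟩, -, -, hlt', e'⟩ := ht'
    have h := e.trans e'.symm
    rw [cM_eq, cM_eq, Prod.mk.injEq] at h
    have hv0 : (0 : ℤ) < ((3 * t.2 : ℕ) : ℤ) := by exact_mod_cast (by omega : 0 < 3 * t.2)
    have huv : ((3 * t.2 : ℕ) : ℤ) < (t.1 : ℤ) := by exact_mod_cast hlt
    have hv0' : (0 : ℤ) < ((3 * t'.2 : ℕ) : ℤ) := by exact_mod_cast (by omega : 0 < 3 * t'.2)
    have huv' : ((3 * t'.2 : ℕ) : ℤ) < (t'.1 : ℤ) := by exact_mod_cast hlt'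
    obtain ⟨e1, e2⟩ := inj6 hv0 huv hv0' huv' h.1 h.2
    apply Prod.ext
    · exact_mod_cast e1
    · have e3 : 3 * t.2 = 3 * t'.2 := by exact_mod_cast e2
      omega

end Pool.Agent.N134.EC
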