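import Pool.Agent.N870.EC.Stm2
import Pool.Agent.N134.EC.Fam6L

/-!
# EC/FAM6 (helper134 for helper870)
-/

set_option autoImplicit false

namespace Pool.Agent.N134.EC

theorem t_FAM6 : Pool.Agent.N870.EC.S_FAM6 := fam6

end Pool.Agent.N134.EC
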